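import Mathlib
import Pool.Agent.Helper1.RG.Defs

/-! Row H3 of the project RG (MP_c9c10f). -/

set_option autoImplicit false

open MeasureTheory Complex Pool.Agent.Helper1.RG
open scoped ComplexConjugate

namespace Pool.Agent.Helper9.RG

theorem meas_ev_sig (S : Set ℂ) (x : ℂ) (hx : x ∈ S) : Measurable[sig S] (ev x) := by
  have h1 : Measurable (fun f : S → ℂ => f ⟨x, hx⟩) := measurable_pi_apply _
  exact h1.comp (comap_measurable (fun (χ : Om) (x : S) => ev (x : ℂ) χ))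

theorem sig_le (S : Set ℂ) : sig S ≤ instMeasOm := by
  have h1 : Measurable[instMeasOm] (fun (χ : Om) (x : S) => ev (x : ℂ) χ) := by
    rw [measurable_pi_iff]
    intro x
    exact meas_ev_sig Set.univ x (Set.mem_univ _)
  exact h1.comap_le

theorem meas_ev (x : ℂ) : Measurable (ev x) := meas_ev_sig Set.univ x (Set.mem_univ _)

theorem ev_add (x y : ℂ) (χ : Om) : ev (x + y) χ = ev x χ * ev y χ := by
  unfold ev
  rw [AddChar.map_add_eq_mul]
  simp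

theorem norm_ev (x : ℂ) (χ : Om) : ‖ev x χ‖ = 1 := by
  unfold ev
  simp

theorem ev_mulShift (u x : ℂ) (χ : Om) : ev x (χ.mulShift u) = ev (u * x) χ := by
  unfold ev
  rw [AddChar.mulShift_apply]

theorem int_ev (P : Measure Om) [IsProbabilityMeasure P] (x : ℂ) : Integrable (ev x) P := by
  refine Integrable.of_bound (meas_ev x).aestronglyMeasurable 1 ?_
  exact Filter.Eventually.of_forall fun χ => (norm_ev x χ).le

/-- lower bound for one summand -/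
theorem key (P : Measure Om) [IsProbabilityMeasure P] (s r : ℂ) (hr : r ∈ Rj 0) :
    ‖∫ χ, ev (r + s) χ ∂P‖ ^ 2 ≤ ∫ χ, ‖(P[ev s | Fil 0]) χ‖ ^ 2 ∂P := by
  have hm : Fil 0 ≤ instMeasOm := sig_le _
  set E : Om → ℂ := P[ev s | Fil 0] with hE
  have hb : ∀ᵐ χ ∂P, ‖E χ‖ ≤ 1 :=
    ae_bdd_norm_condExp_of_ae_bdd_norm (Filter.Eventually.of_forall fun χ => (norm_ev s χ).le)
  have hEi : Integrable E P := integrable_condExp
  have h1 : ∫ χ, ev (r + s) χ ∂P = ∫ χ, ev r χ * E χ ∂P := by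
    have h2 : P[fun χ => ContinuousLinearMap.mul ℝ ℂ (ev r χ) (ev s χ) | Fil 0] =ᵐ[P]
        fun χ => ContinuousLinearMap.mul ℝ ℂ (ev r χ) (E χ) := by
      refine condExp_stronglyMeasurable_bilin_of_bound (ContinuousLinearMap.mul ℝ ℂ) hm
        (Measurable.stronglyMeasurable (meas_ev_sig _ r hr)) (int_ev P s) 1 ?_
      exact Filter.Eventually.of_forall fun χ => (norm_ev r χ).le
    have h3 : ∫ χ, ev (r + s) χ ∂P =
        ∫ χ, (P[fun χ => ContinuousLinearMap.mul ℝ ℂ (ev r χ) (ev s χ) | Fil 0]) χ ∂P := by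
      rw [integral_condExp hm]
      refine integral_congr_ae (Filter.Eventually.of_forall fun χ => ?_)
      exact ev_add r s χ
    rw [h3]
    exact integral_congr_ae h2
  have h4 : ‖∫ χ, ev r χ * E χ ∂P‖ ≤ ∫ χ, ‖E χ‖ ∂P := by
    refine (norm_integral_le_integral_norm _).trans (le_of_eq ?_)
    refine integral_congr_ae (Filter.Eventually.of_forall fun χ => ?_)
    show ‖ev r χ * E χ‖ = ‖E χ‖
    rw [norm_mul, norm_ev, one_mul]
  set c : ℝ := ∫ χ, ‖E χ‖ ∂P with hc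
  have hn : Integrable (fun χ => ‖E χ‖) P := hEi.norm
  have hn2 : Integrable (fun χ => ‖E χ‖ ^ 2) P := by
    refine Integrable.of_bound (hn.aestronglyMeasurable.pow 2) 1 ?_
    filter_upwards [hb] with χ hχ
    rw [Real.norm_of_nonneg (by positivity)]
    exact pow_le_one₀ (norm_nonneg _) hχ
  have h5 : c ^ 2 ≤ ∫ χ, ‖E χ‖ ^ 2 ∂P := by
    have h6 : 0 ≤ ∫ χ, (‖E χ‖ - c) ^ 2 ∂P := integral_nonneg fun χ => sq_nonneg _
    have h7 : ∫ χ, (‖E χ‖ - c) ^ 2 ∂P = ∫ χ, ‖E χ‖ ^ 2 ∂P - c ^ 2 := by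
      have h8 : ∀ χ, (‖E χ‖ - c) ^ 2 = ‖E χ‖ ^ 2 - (2 * c) * ‖E χ‖ + c ^ 2 := fun χ => by ring
      have hA : Integrable (fun χ => ‖E χ‖ ^ 2 - (2 * c) * ‖E χ‖) P := hn2.sub (hn.const_mul _)
      simp_rw [h8]
      rw [integral_add hA (integrable_const _),
        integral_sub hn2 (hn.const_mul _), integral_const_mul, integral_const, probReal_univ,
        ← hc, one_smul]
      ring
    linarith
  rw [h1]
  calc ‖∫ χ, ev r χ * E χ ∂P‖ ^ 2 ≤ c ^ 2 := pow_le_pow_left₀ (norm_nonneg _) h4 2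
    _ ≤ _ := h5

/-- digits -/
theorem digits (hA2 : ST_A2) : ∀ (n : ℕ) (x : ℂ), x ∈ Rj n → ∃ a : Fin n → Fin 5,
    x - ∑ j : Fin n, ((a j : ℕ) : ℂ) * xj j ∈ Rj 0 := by
  intro n
  induction n with
  | zero =>
    intro x hx
    exact ⟨fun _ => 0, by simpa using hx⟩
  | succ n ih =>
    intro x hx
    obtain ⟨a, ha, hax⟩ := hA2 n x hx
    obtain ⟨b, hb⟩ := ih _ hax
    refine ⟨Fin.snoc b ⟨a, ha⟩, ?_⟩
    rw [Fin.sum_univ_castSucc]
    simp only [Fin.snoc_castSucc, Fin.snoc_last, Fin.val_castSucc, Fin.val_last]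
    have h1 : x - (∑ j : Fin n, ((b j : ℕ) : ℂ) * xj j + (a : ℂ) * xj n) =
        x - (a : ℂ) * xj n - ∑ j : Fin n, ((b j : ℕ) : ℂ) * xj j := by ring
    rw [h1]
    exact hb

theorem st_H3 (hA1 : ST_A1) (hA2 : ST_A2) (hA3 : ST_A3) (hH2 : ST_H2) : ST_H3 := by
  classical
  intro P hP hI L
  obtain ⟨U, hcard, hU, hUU⟩ := hA3 L
  have hsub : ∀ x ∈ Rj 0, ∀ y ∈ Rj 0, x - y ∈ Rj 0 := fun x hx y hy =>
    (hA1.2.2.2.2.2.2.1 0 x hx y hy).2
  have hR0 : ∀ x, x ∈ Rj 0 → x ∈ RR := by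
    intro x hx
    have h1 : gb ^ 0 * x ∈ RR := hx
    rwa [pow_zero, one_mul] at h1
  choose! dig hdig using digits hA2 (L + 1)
  have hinj : Set.InjOn dig (U : Set ℂ) := by
    intro u hu v hv huv
    by_contra hne
    apply hUU u hu v hv hne
    apply hR0
    have h1 := hdig u (hU u hu).2
    have h2 := hdig v (hU v hv).2
    rw [← huv] at h2
    have h3 := hsub _ h1 _ h2
    have h4 : u - ∑ j : Fin (L + 1), ((dig u j : ℕ) : ℂ) * xj j -
        (v - ∑ j : Fin (L + 1), ((dig u j : ℕ) : ℂ) * xj j) = u - v := by ring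
    rwa [h4] at h3
  have hinv : ∀ u ∈ U, ∫ χ, ev u χ ∂P = ∫ χ, ev 1 χ ∂P := by
    intro u hu
    have h1 := hI u (hU u hu).1
    have hmeas : Measurable (fun χ : Om => χ.mulShift u) := by
      have h2 : instMeasOm = MeasurableSpace.comap
          (fun (χ : Om) (x : (Set.univ : Set ℂ)) => ev (x : ℂ) χ) MeasurableSpace.pi := rfl
      rw [h2]
      rw [measurable_comap_iff, measurable_pi_iff]
      intro x
      have h3 : (fun χ : Om => ((fun (χ : Om) (x : (Set.univ : Set ℂ)) => ev (x : ℂ) χ) ∘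
          fun χ : Om => χ.mulShift u) χ x) = ev (u * x) := by
        funext χ
        exact ev_mulShift u x χ
      rw [h3, ← h2]
      exact meas_ev _
    calc ∫ χ, ev u χ ∂P = ∫ χ, ev 1 (χ.mulShift u) ∂P := by
          refine integral_congr_ae (Filter.Eventually.of_forall fun χ => ?_)
          show ev u χ = ev 1 (χ.mulShift u)
          rw [ev_mulShift, mul_one]
      _ = ∫ χ, ev 1 χ ∂(P.map (fun χ : Om => χ.mulShift u)) :=
          (integral_map hmeas.aemeasurable (meas_ev 1).aestronglyMeasurable).symm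
      _ = ∫ χ, ev 1 χ ∂P := by rw [h1]
  have hterm : ∀ u ∈ U, ‖∫ χ, ev 1 χ ∂P‖ ^ 2 ≤
      ∫ χ, ‖(P[ev (∑ j : Fin (L + 1), ((dig u j : ℕ) : ℂ) * xj j) | Fil 0]) χ‖ ^ 2 ∂P := by
    intro u hu
    have h1 := key P (∑ j : Fin (L + 1), ((dig u j : ℕ) : ℂ) * xj j) _ (hdig u (hU u hu).2)
    rw [sub_add_cancel, hinv u hu] at h1
    exact h1
  have hsum := hH2 P hP (L + 1)
  have h2 : (U.card : ℝ) * ‖∫ χ, ev 1 χ ∂P‖ ^ 2 ≤ ∑ a : Fin (L + 1) → Fin 5,
      ∫ χ, ‖(P[ev (∑ j : Fin (L + 1), ((a j : ℕ) : ℂ) * xj j) | Fil 0]) χ‖ ^ 2 ∂P := by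
    calc (U.card : ℝ) * ‖∫ χ, ev 1 χ ∂P‖ ^ 2 = ∑ _u ∈ U, ‖∫ χ, ev 1 χ ∂P‖ ^ 2 := by
          rw [Finset.sum_const, nsmul_eq_mul]
      _ ≤ ∑ u ∈ U, ∫ χ, ‖(P[ev (∑ j : Fin (L + 1), ((dig u j : ℕ) : ℂ) * xj j) | Fil 0]) χ‖ ^ 2
          ∂P := Finset.sum_le_sum hterm
      _ = ∑ a ∈ U.image dig,
          ∫ χ, ‖(P[ev (∑ j : Fin (L + 1), ((a j : ℕ) : ℂ) * xj j) | Fil 0]) χ‖ ^ 2 ∂P :=
          by rw [Finset.sum_image hinj]
      _ ≤ _ := Finset.sum_le_sum_of_subset_of_nonneg (Finset.subset_univ _) fun a _ _ =>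
          integral_nonneg fun χ => by positivity
  rw [hcard] at h2
  have h3 := h2.trans hsum
  push_cast at h3
  have h5 : (0 : ℝ) < 5 ^ L := by positivity
  have h6 : (5 : ℝ) ^ (L + 1) = 5 ^ L * 5 := pow_succ _ _
  rw [h6] at h3
  have h7 : (5 : ℝ) ^ L * (4 * ‖∫ χ, ev 1 χ ∂P‖ ^ 2) ≤
      5 ^ L * (5 * ∫ χ, ∏ j ∈ Finset.range (L + 1), pj P j χ ∂P) := by
    calc (5 : ℝ) ^ L * (4 * ‖∫ χ, ev 1 χ ∂P‖ ^ 2) = 4 * 5 ^ L * ‖∫ χ, ev 1 χ ∂P‖ ^ 2 := by ring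
      _ ≤ _ := h3
      _ = _ := by ring
  have h8 := le_of_mul_le_mul_left h7 h5
  linarith

end Pool.Agent.Helper9.RG
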